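import Pool.Agent.Helper10.GN.Fin
import Pool.Agent.Helper10.TC.PCrit

set_option autoImplicit false

namespace Pool.Agent.Results.MP_63c74b_ag.FullCriterion

open MvPolynomial Pool.Agent.Helper68.QM Pool.Agent.Helper10.TC

/-- `p` takes positive and negative values on `ℝ²` -/
def ChangesSign (p : MvPolynomial (Fin 2) ℝ) : Prop :=
  (∃ z : Fin 2 → ℝ, 0 < eval z p) ∧ ∃ z : Fin 2 → ℝ, eval z p < 0

/-- the value of the real polynomial `p` at the complex point `z` -/
noncomputable def cval (p : MvPolynomial (Fin 2) ℝ) (z : Fin 2 → ℂ) : ℂ :=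
  eval z (MvPolynomial.map Complex.ofRealHom p)

/-- some polynomial is bounded on the real curve `p = 0`, but not constant modulo `p` -/
def HasBounded (p : MvPolynomial (Fin 2) ℝ) : Prop :=
  ∃ q : MvPolynomial (Fin 2) ℝ,
    (∃ K : ℝ, ∀ z : Fin 2 → ℝ, eval z p = 0 → |eval z q| ≤ K) ∧ ∀ c : ℝ, ¬ p ∣ q - C c

/-- the determinant of the Hessian matrix of `P` at `z` -/
noncomputable def detHess (P : MvPolynomial (Fin 2) ℝ) (z : Fin 2 → ℝ) : ℝ :=
  eval z (pderiv 0 (pderiv 0 P)) * eval z (pderiv 1 (pderiv 1 P)) -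
    eval z (pderiv 0 (pderiv 1 P)) ^ 2

/-- `p 0, ..., p (n-1)` are the irreducible factors of `g` changing sign, each once up to constants -/
structure SignFactors (g : MvPolynomial (Fin 2) ℝ) {n : ℕ} (p : Fin n → MvPolynomial (Fin 2) ℝ) :
    Prop where
  irreducible : ∀ i, Irreducible (p i)
  changesSign : ∀ i, ChangesSign (p i)
  dvd : ∀ i, p i ∣ g
  distinct : ∀ i j, i ≠ j → ¬ Associated (p i) (p j)
  all : ∀ r, Irreducible r → ChangesSign r → r ∣ g → ∃ i, Associated r (p i)

/-- **Criterion for all `g`.** (1) `M_0` is stable. (2) Let `g ≤ 0` on `ℝ²`, `g ≠ 0`, let `p i` be the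
irreducible factors of `g` which change sign (they exist, as a finite family), and `P` their product.
`M_g` is stable if and only if for every `i` such that some polynomial is bounded on the real curve
`p i = 0` and not constant modulo `p i`: at every real zero of `p i` the gradient of `P` is not zero or
the Hessian determinant of `P` is negative, and all common complex zeros of `p i` and the other `p j`
are real. (3) If `g` is positive somewhere then either the top form `g_D` of `g` is positive somewhere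
and `M_g` is stable; or `D = deg g` is even, `g_D (l, 1) < 0` for some `l`, and for every such `l` and
`g' = g (x + l y, y)` there is a finite system of good balls covering `{g' > 0}` near infinity, and for
every such system `M_g` is stable if and only if the system is not empty and the linear inequalities
`2 N² ∑ ν_i ≤ ∑ ν_i A(i, j)` (all `j`) have no nonzero solution `ν` in nonnegative integers. -/
theorem result : ∀ g : MvPolynomial (Fin 2) ℝ,
    (g = 0 → Stable g) ∧
    ((∀ z : Fin 2 → ℝ, eval z g ≤ 0) → g ≠ 0 →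
      (∃ (n : ℕ) (p : Fin n → MvPolynomial (Fin 2) ℝ), SignFactors g p) ∧
      ∀ (n : ℕ) (p : Fin n → MvPolynomial (Fin 2) ℝ), SignFactors g p →
        (Stable g ↔ ∀ i, HasBounded (p i) →
          (∀ z : Fin 2 → ℝ, eval z (p i) = 0 →
            (∃ k, eval z (pderiv k (∏ j, p j)) ≠ 0) ∨ detHess (∏ j, p j) z < 0) ∧
          ∀ j, j ≠ i → ∀ z : Fin 2 → ℂ, cval (p i) z = 0 → cval (p j) z = 0 →
            ∀ k, (z k).im = 0)) ∧
    ((∃ z : Fin 2 → ℝ, 0 < eval z g) →
      ((∃ v : Fin 2 → ℝ, 0 < eval v (homogeneousComponent g.totalDegree g)) ∧ Stable g) ∨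
      (Even g.totalDegree ∧
        (∃ l : ℝ, eval ![l, 1] (homogeneousComponent g.totalDegree g) < 0) ∧
        ∀ l : ℝ, eval ![l, 1] (homogeneousComponent g.totalDegree g) < 0 →
        (∃ (N J : ℕ) (B : Fin J → Ball), N ≠ 0 ∧
          (∀ j, Good N (hat g.totalDegree (sh l g)) (B j)) ∧
          Covers N (hat g.totalDegree (sh l g)) B) ∧
        ∀ (N J : ℕ) (B : Fin J → Ball), N ≠ 0 →
          (∀ j, Good N (hat g.totalDegree (sh l g)) (B j)) →
          Covers N (hat g.totalDegree (sh l g)) B →
          (Stable g ↔ 0 < J ∧ ∀ ν : Fin J → ℕ, ν ≠ 0 →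
            ∃ j, ∑ i, ν i * Ah N (B i) (B j) < 2 * N ^ 2 * ∑ i, ν i))) := by
  intro g
  refine ⟨?_, fun hg h0 => ⟨?_, fun n p hp => ?_⟩, fun hg => puiseux_criterion g hg⟩
  · rintro rfl
    refine ⟨fun d => d, fun d f hf hd => ?_⟩
    obtain ⟨s, t, hs, -, hst⟩ := hf
    refine ⟨s, 0, hs, IsSumSq.zero, by rw [hst]; ring, ?_, ?_⟩
    · have e : s = f := by rw [hst]; ring
      rw [e]
      exact hd
    · simp
  · obtain ⟨n, p, hp⟩ := Helper10.GN.exists_comps hg h0
    exact ⟨n, p, hp.fam.irr, hp.fam.sc, hp.dvd, hp.fam.na, hp.all⟩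
  · have hc : Helper10.GN.Comps g p :=
      ⟨⟨hp.irreducible, hp.changesSign, hp.distinct⟩, hp.dvd, hp.all⟩
    rw [Helper10.GN.classification hg h0 hc]
    refine forall_congr' fun i => imp_congr Iff.rfl (and_congr Iff.rfl ?_)
    refine forall_congr' fun j => imp_congr Iff.rfl (forall_congr' fun z =>
      imp_congr Iff.rfl (imp_congr Iff.rfl ?_))
    change ¬ (∃ k, (z k).im ≠ 0) ↔ _
    push Not
    exact Iff.rfl

end Pool.Agent.Results.MP_63c74b_ag.FullCriterion
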