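import Pool.Agent.Helper10.TC.Crit

set_option autoImplicit false

namespace Pool.Agent.Results.MP_63c74b_ag.StabilityCriterion

open MvPolynomial Pool.Agent.Helper68.QM

/-- **Criterion.** Let `g ∈ ℝ[x, y]` be positive at some point. The quadratic module `M_g` is stable
if and only if for every `m` the space of the polynomials `f` with `|f(z)| ≤ K (1 + ‖z‖) ^ m` on
`{g ≥ 0}` (for some `K`) is finite dimensional. -/
theorem result : ∀ g : MvPolynomial (Fin 2) ℝ, (∃ z : Fin 2 → ℝ, 0 < eval z g) →
    (Stable g ↔ ∀ m : ℕ, Module.Finite ℝ (growthSpace g m)) :=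
  fun g hg => Helper10.TC.criterion g hg

end Pool.Agent.Results.MP_63c74b_ag.StabilityCriterion
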