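import Pool.Agent.Helper10.TI.FamC

set_option autoImplicit false

namespace Pool.Agent.Results.MP_63c74b_ag.TwistedPencils

open MvPolynomial Pool.Agent.Helper68.QM

/-- the polynomial `c ^ 2 x ^ (2 k) - 1 - (x ^ a (y ^ 2 - x ^ q) - κ y) ^ 2` -/
noncomputable def pencil (a k q : ℕ) (c κ : ℝ) : MvPolynomial (Fin 2) ℝ :=
  C (c ^ 2) * X 0 ^ (2 * k) - 1 - (X 0 ^ a * (X 1 ^ 2 - X 0 ^ q) - C κ * X 1) ^ 2

/-- `M_g` is stable exactly when `a < k`, for `g = c² x^(2k) - 1 - (x^a (y² - x^q) - κ y)²`. -/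
theorem result : ∀ (a k q : ℕ) (c κ : ℝ), 1 ≤ k → 1 ≤ q → c ≠ 0 →
    (Stable (pencil a k q c κ) ↔ a < k) := by
  intro a k q c κ hk hq hc
  constructor
  · intro h
    by_contra hcon
    exact Helper10.TI.family_unstable a k q c κ hk (by omega) hq hc h
  · intro h
    exact Helper10.TI.family_stable a k q c κ h hc

end Pool.Agent.Results.MP_63c74b_ag.TwistedPencils
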