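import Pool.Agent.Helper10.TI.FamC

set_option autoImplicit false

namespace Pool.Agent.Results.MP_63c74b_ag.UnboundedUnstable

open MvPolynomial Pool.Agent.Helper68.QM

/-- the polynomial `c ^ 2 x ^ (2 k) - 1 - (x ^ a (y ^ 2 - x ^ q) - κ y) ^ 2` -/
noncomputable def pencil (a k q : ℕ) (c κ : ℝ) : MvPolynomial (Fin 2) ℝ :=
  C (c ^ 2) * X 0 ^ (2 * k) - 1 - (X 0 ^ a * (X 1 ^ 2 - X 0 ^ q) - C κ * X 1) ^ 2

/-- For `1 ≤ a ≤ m`, `c, κ ≠ 0` and `g = c² x^(2a) - 1 - (x^a (y² - x^(2m+1)) - κ y)²` the only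
polynomials bounded on `{g ≥ 0}` are the constants, but `M_g` is not stable. -/
theorem result : ∀ (a m : ℕ) (c κ : ℝ), 1 ≤ a → a ≤ m → c ≠ 0 → κ ≠ 0 →
    (∀ f : MvPolynomial (Fin 2) ℝ, (∃ B : ℝ, ∀ z : Fin 2 → ℝ,
      0 ≤ eval z (pencil a a (2 * m + 1) c κ) → |eval z f| ≤ B) → ∃ r : ℝ, f = C r) ∧
    ¬ Stable (pencil a a (2 * m + 1) c κ) := by
  intro a m c κ ha ham hc hκ
  constructor
  · rintro f ⟨B, hB⟩
    exact Helper10.TI.family_bounded a m c κ ha ham hc hκ f B hB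
  · exact Helper10.TI.family_unstable a a (2 * m + 1) c κ ha le_rfl (by omega) hc

end Pool.Agent.Results.MP_63c74b_ag.UnboundedUnstable
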